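import Mathlib
import Pool.Agent.W795.Ode
import Pool.Agent.W738.CP.Pair

set_option autoImplicit false

open Set Filter Topology

namespace Pool.Agent.Y313.CC

/-- Jost data for a potential `V` supported in `[-w, 0]` -/
structure GJ (w : ℝ) (k : ℕ) (V : ℝ → ℝ) where
  χ : ℝ → ℝ
  χ' : ℝ → ℝ
  A : ℝ
  R : ℝ
  cont : Continuous χ'
  der : ∀ t, HasDerivAt χ (χ' t) t
  der2 : ∀ t, HasDerivAt χ' (((k : ℝ) ^ 2 + V t) * χ t) t
  pos : ∀ t, 0 < χ t
  right : ∀ t, 0 ≤ t → χ t = Real.exp (-(k * t))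
  right' : ∀ t, 0 ≤ t → χ' t = -k * Real.exp (-(k * t))
  left : ∀ t, t ≤ -w → χ t = A * Real.exp (-(k * t)) + R * Real.exp (k * t)
  left' : ∀ t, t ≤ -w → χ' t = -k * A * Real.exp (-(k * t)) + k * R * Real.exp (k * t)
  one_le_A : 1 ≤ A
  absR : |R| ≤ A * Real.exp (2 * k * w)
  upper : ∀ t, χ t ≤ A * Real.exp (-(k * t))

theorem const_on {f f' : ℝ → ℝ} (hf : ∀ t, HasDerivAt f (f' t) t) {D : Set ℝ} (hD : Convex ℝ D)
    (h0 : ∀ t ∈ D, f' t = 0) {x y : ℝ} (hx : x ∈ D) (hy : y ∈ D) : f x = f y := by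
  have hc : ContinuousOn f D := fun t _ => (hf t).continuousAt.continuousWithinAt
  have hd : DifferentiableOn ℝ f (interior D) :=
    fun t _ => (hf t).differentiableAt.differentiableWithinAt
  have m1 : MonotoneOn f D := monotoneOn_of_deriv_nonneg hD hc hd
    (fun t ht => by rw [(hf t).deriv, h0 t (interior_subset ht)])
  have m2 : AntitoneOn f D := antitoneOn_of_deriv_nonpos hD hc hd
    (fun t ht => by rw [(hf t).deriv, h0 t (interior_subset ht)])
  rcases le_total x y with h | h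
  · exact le_antisymm (m1 hx hy h) (m2 hx hy h)
  · exact le_antisymm (m2 hy hx h) (m1 hy hx h)

/-- existence of the Jost solution -/
theorem exists_jost {w : ℝ} (hw : 0 ≤ w) {k : ℕ} (hk : 1 ≤ k) {V : ℝ → ℝ} (hV : Continuous V)
    (h0 : ∀ t, 0 ≤ V t) (hr : ∀ t, 0 ≤ t → V t = 0) (hl : ∀ t, t ≤ -w → V t = 0) :
    Nonempty (GJ w k V) := by
  set L0 : ℝ × ℝ →L[ℝ] ℝ × ℝ := (ContinuousLinearMap.snd ℝ ℝ ℝ).prod 0 with hL0
  set L1 : ℝ × ℝ →L[ℝ] ℝ × ℝ := (0 : ℝ × ℝ →L[ℝ] ℝ).prod (ContinuousLinearMap.fst ℝ ℝ ℝ) with hL1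
  have hB : Continuous (fun t : ℝ => L0 + ((k : ℝ) ^ 2 + V t) • L1) := by fun_prop
  obtain ⟨Y, hY0, hY⟩ := Pool.Agent.W795.exists_linear hB ((1 : ℝ), -(k : ℝ))
  have hk0 : (0 : ℝ) < k := by exact_mod_cast hk
  obtain ⟨x, hx⟩ : ∃ x : ℝ → ℝ, ∀ t, x t = (Y t).1 := ⟨_, fun _ => rfl⟩
  obtain ⟨x', hx'⟩ : ∃ x' : ℝ → ℝ, ∀ t, x' t = (Y t).2 := ⟨_, fun _ => rfl⟩
  have d1 : ∀ t, HasDerivAt x (x' t) t := by
    intro t
    have h := (ContinuousLinearMap.fst ℝ ℝ ℝ).hasFDerivAt.comp_hasDerivAt t (hY t)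
    have e : x = (ContinuousLinearMap.fst ℝ ℝ ℝ) ∘ Y := by funext t; exact hx t
    rw [e]
    refine h.congr_deriv ?_
    simp [hL0, hL1, hx' t]
  have d2 : ∀ t, HasDerivAt x' (((k : ℝ) ^ 2 + V t) * x t) t := by
    intro t
    have h := (ContinuousLinearMap.snd ℝ ℝ ℝ).hasFDerivAt.comp_hasDerivAt t (hY t)
    have e : x' = (ContinuousLinearMap.snd ℝ ℝ ℝ) ∘ Y := by funext t; exact hx' t
    rw [e]
    refine h.congr_deriv ?_
    simp [hL0, hL1, hx t]
  have x0 : x 0 = 1 := by rw [hx, hY0]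
  have x'0 : x' 0 = -k := by rw [hx', hY0]
  have cx : Continuous x := continuous_iff_continuousAt.2 fun t => (d1 t).continuousAt
  have cx' : Continuous x' := continuous_iff_continuousAt.2 fun t => (d2 t).continuousAt
  obtain ⟨M, hM⟩ : ∃ M : ℝ → ℝ, ∀ t, M t = (k * x t - x' t) * Real.exp (k * t) / (2 * k) :=
    ⟨_, fun _ => rfl⟩
  obtain ⟨N, hN⟩ : ∃ N : ℝ → ℝ, ∀ t, N t = (k * x t + x' t) * Real.exp (-(k * t)) / (2 * k) :=
    ⟨_, fun _ => rfl⟩
  have dM : ∀ t, HasDerivAt M (-(V t * x t) * Real.exp (k * t) / (2 * k)) t := by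
    intro t
    have e : M = fun t => (k * x t - x' t) * Real.exp (k * t) / (2 * k) := funext hM
    rw [e]
    have h := ((((d1 t).const_mul (k : ℝ)).fun_sub (d2 t)).fun_mul
      (Pool.Agent.W738.CP.hexpp k t)).div_const (2 * (k : ℝ))
    refine h.congr_deriv ?_
    ring
  have dN : ∀ t, HasDerivAt N ((V t * x t) * Real.exp (-(k * t)) / (2 * k)) t := by
    intro t
    have e : N = fun t => (k * x t + x' t) * Real.exp (-(k * t)) / (2 * k) := funext hN
    rw [e]
    have h := ((((d1 t).const_mul (k : ℝ)).fun_add (d2 t)).fun_mul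
      (Pool.Agent.W738.CP.hexpn k t)).div_const (2 * (k : ℝ))
    refine h.congr_deriv ?_
    ring
  have hE : ∀ t : ℝ, Real.exp (k * t) * Real.exp (-(k * t)) = 1 := by
    intro t; rw [← Real.exp_add]; simp
  have rep : ∀ t, x t = M t * Real.exp (-(k * t)) + N t * Real.exp (k * t) := by
    intro t
    rw [hM, hN]
    have := hE t
    field_simp
    linear_combination (-2 * k * x t) * this
  have rep' : ∀ t, x' t = -k * M t * Real.exp (-(k * t)) + k * N t * Real.exp (k * t) := by
    intro t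
    rw [hM, hN]
    have := hE t
    field_simp
    linear_combination (-2 * x' t) * this
  have M0 : M 0 = 1 := by rw [hM, x0, x'0]; simp; field_simp; ring
  have N0 : N 0 = 0 := by rw [hN, x0, x'0]; simp
  have Mr : ∀ t, 0 ≤ t → M t = 1 := by
    intro t ht
    rw [← M0]
    exact const_on dM (convex_Ici 0) (fun s hs => by rw [hr s hs]; simp) ht (Set.mem_Ici.2 le_rfl)
  have Nr : ∀ t, 0 ≤ t → N t = 0 := by
    intro t ht
    rw [← N0]
    exact const_on dN (convex_Ici 0) (fun s hs => by rw [hr s hs]; simp) ht (Set.mem_Ici.2 le_rfl)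
  have Ml : ∀ t, t ≤ -w → M t = M (-w) := fun t ht =>
    const_on dM (convex_Iic (-w)) (fun s hs => by rw [hl s hs]; simp) ht (le_refl (-w))
  have Nl : ∀ t, t ≤ -w → N t = N (-w) := fun t ht =>
    const_on dN (convex_Iic (-w)) (fun s hs => by rw [hl s hs]; simp) ht (le_refl (-w))
  have hright : ∀ t, 0 ≤ t → x t = Real.exp (-(k * t)) := by
    intro t ht
    rw [rep, Mr t ht, Nr t ht]; ring
  have hright' : ∀ t, 0 ≤ t → x' t = -k * Real.exp (-(k * t)) := by
    intro t ht
    rw [rep', Mr t ht, Nr t ht]; ring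
  -- positivity
  have hne : ∀ t, x t ≠ 0 := by
    intro t
    rcases le_total 0 t with h | h
    · rw [hright t h]; exact (Real.exp_pos _).ne'
    · have hf : ∀ t, HasDerivAt (fun t => x t * x' t)
          (x' t * x' t + x t * (((k : ℝ) ^ 2 + V t) * x t)) t := fun t => (d1 t).fun_mul (d2 t)
      have hm : Monotone (fun t => x t * x' t) := by
        refine monotone_of_deriv_nonneg (fun t => (hf t).differentiableAt) (fun t => ?_)
        rw [(hf t).deriv]
        have a1 := h0 t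
        have a2 : 0 ≤ ((k : ℝ) ^ 2 + V t) * (x t * x t) :=
          mul_nonneg (by positivity) (mul_self_nonneg _)
        have a3 := mul_self_nonneg (x' t)
        linarith
      have h2 := hm h
      simp only [x0, x'0, one_mul] at h2
      intro h3
      rw [h3, zero_mul] at h2
      linarith
  have hpos : ∀ t, 0 < x t := by
    intro t
    by_contra hcon
    push Not at hcon
    have h1 : (0 : ℝ) ∈ Set.uIcc (x t) (x 0) := by
      rw [x0, Set.mem_uIcc]; left; exact ⟨hcon, zero_le_one⟩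
    obtain ⟨s, _, hs⟩ := intermediate_value_uIcc (a := t) (b := 0) cx.continuousOn h1
    exact hne s hs
  have hMa : Antitone M := by
    refine antitone_of_deriv_nonpos (fun t => (dM t).differentiableAt) (fun t => ?_)
    rw [(dM t).deriv]
    have := mul_nonneg (mul_nonneg (h0 t) (hpos t).le) (Real.exp_pos (k * t)).le
    rw [neg_mul, neg_div, neg_nonpos]
    positivity
  have hNm : Monotone N := by
    refine monotone_of_deriv_nonneg (fun t => (dN t).differentiableAt) (fun t => ?_)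
    rw [(dN t).deriv]
    have := mul_nonneg (h0 t) (hpos t).le
    positivity
  have Nle : ∀ t, N t ≤ 0 := by
    intro t
    rcases le_total 0 t with h | h
    · rw [Nr t h]
    · rw [← N0]; exact hNm h
  have Mle : ∀ t, M t ≤ M (-w) := by
    intro t
    rcases le_total t (-w) with h | h
    · rw [Ml t h]
    · exact hMa h
  have hA1 : 1 ≤ M (-w) := by
    rw [← M0]; exact hMa (by linarith)
  have hR : |N (-w)| ≤ M (-w) * Real.exp (2 * k * w) := by
    rw [abs_of_nonpos (Nle _)]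
    have h1 := hpos (-w)
    rw [rep] at h1
    have e1 : Real.exp (-(k * -w)) = Real.exp (k * w) := by congr 1; ring
    have e2 : Real.exp (k * -w) * Real.exp (k * w) = 1 := by rw [← Real.exp_add]; simp
    have e3 : Real.exp (2 * k * w) = Real.exp (k * w) * Real.exp (k * w) := by
      rw [← Real.exp_add]; congr 1; ring
    rw [e1] at h1
    have h2 := mul_pos h1 (Real.exp_pos (k * w))
    rw [e3]
    have h3 : (M (-w) * Real.exp (k * w) + N (-w) * Real.exp (k * -w)) * Real.exp (k * w) =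
        M (-w) * (Real.exp (k * w) * Real.exp (k * w)) +
          N (-w) * (Real.exp (k * -w) * Real.exp (k * w)) := by ring
    rw [h3, e2] at h2
    linarith
  exact ⟨{
    χ := x
    χ' := x'
    A := M (-w)
    R := N (-w)
    cont := cx'
    der := d1
    der2 := d2
    pos := hpos
    right := hright
    right' := hright'
    left := fun t ht => by rw [rep, Ml t ht, Nl t ht]
    left' := fun t ht => by rw [rep', Ml t ht, Nl t ht]
    one_le_A := hA1
    absR := hR
    upper := fun t => by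
      rw [rep]
      have a1 := mul_le_mul_of_nonneg_right (Mle t) (Real.exp_pos (-(k * t))).le
      have a2 := mul_nonpos_of_nonpos_of_nonneg (Nle t) (Real.exp_pos (k * t)).le
      linarith }⟩

end Pool.Agent.Y313.CC
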