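import Mathlib
import Pool.Agent.Y313.CC.Jost

set_option autoImplicit false

open Set Filter Topology

namespace Pool.Agent.Y313.CC

noncomputable def shf (f : ℝ → ℝ) (a : ℝ) (k : ℕ) : ℝ → ℝ := fun t =>
  Real.exp (-(k * a)) * f (t - a)

theorem shf_d {f : ℝ → ℝ} {f' t a : ℝ} {k : ℕ} (h : HasDerivAt f f' (t - a)) :
    HasDerivAt (shf f a k) (Real.exp (-(k * a)) * f') t :=
  (h.comp_sub_const t a).const_mul _

section
variable {w b a : ℝ} {k : ℕ} {V : ℝ → ℝ}

theorem sh_right (j : GJ w k V) {t : ℝ} (ht : a ≤ t) : shf j.χ a k t = Real.exp (-(k * t)) := by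
  unfold shf
  rw [j.right _ (by linarith), ← Real.exp_add]
  congr 1; ring

theorem sh_right' (j : GJ w k V) {t : ℝ} (ht : a ≤ t) :
    shf j.χ' a k t = -k * Real.exp (-(k * t)) := by
  unfold shf
  rw [j.right' _ (by linarith)]
  have h1 : Real.exp (-(k * a)) * Real.exp (-(k * (t - a))) = Real.exp (-(k * t)) := by
    rw [← Real.exp_add]; congr 1; ring
  linear_combination (-k : ℝ) * h1

theorem sh_e1 (t : ℝ) :
    Real.exp (-(k * a)) * Real.exp (-(k * (t - a))) = Real.exp (-(k * t)) := by
  rw [← Real.exp_add]; congr 1; ring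

theorem sh_e2 (t : ℝ) :
    Real.exp (-(k * a)) * Real.exp (k * (t - a)) = Real.exp (-(2 * k * a)) * Real.exp (k * t) := by
  rw [← Real.exp_add, ← Real.exp_add]; congr 1; ring

theorem sh_left (j : GJ w k V) {t : ℝ} (ht : t ≤ a - w) :
    shf j.χ a k t = j.A * Real.exp (-(k * t)) +
      j.R * Real.exp (-(2 * k * a)) * Real.exp (k * t) := by
  unfold shf
  rw [j.left _ (by linarith)]
  linear_combination j.A * sh_e1 (k := k) (a := a) t + j.R * sh_e2 (k := k) (a := a) t

theorem sh_left' (j : GJ w k V) {t : ℝ} (ht : t ≤ a - w) :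
    shf j.χ' a k t = -k * j.A * Real.exp (-(k * t)) +
      k * j.R * Real.exp (-(2 * k * a)) * Real.exp (k * t) := by
  unfold shf
  rw [j.left' _ (by linarith)]
  linear_combination (-k * j.A) * sh_e1 (k := k) (a := a) t + k * j.R * sh_e2 (k := k) (a := a) t

theorem sh_pos (j : GJ w k V) (t : ℝ) : 0 < shf j.χ a k t :=
  mul_pos (Real.exp_pos _) (j.pos _)

theorem sh_upper (j : GJ w k V) (t : ℝ) : shf j.χ a k t ≤ j.A * Real.exp (-(k * t)) := by
  unfold shf
  calc Real.exp (-(k * a)) * j.χ (t - a)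
      ≤ Real.exp (-(k * a)) * (j.A * Real.exp (-(k * (t - a)))) :=
        mul_le_mul_of_nonneg_left (j.upper _) (Real.exp_pos _).le
    _ = j.A * Real.exp (-(k * t)) := by
        linear_combination j.A * sh_e1 (k := k) (a := a) t

theorem sh_R (j : GJ w k V) (h2 : w - a ≤ b) :
    |j.R| * Real.exp (-(2 * k * a)) ≤ j.A * Real.exp (2 * k * b) := by
  have hA : 0 ≤ j.A := by linarith [j.one_le_A]
  calc |j.R| * Real.exp (-(2 * k * a))
      ≤ (j.A * Real.exp (2 * k * w)) * Real.exp (-(2 * k * a)) :=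
        mul_le_mul_of_nonneg_right j.absR (Real.exp_pos _).le
    _ = j.A * Real.exp (2 * k * (w - a)) := by
        rw [mul_assoc, ← Real.exp_add]; congr 2; ring
    _ ≤ j.A * Real.exp (2 * k * b) := by
        refine mul_le_mul_of_nonneg_left (Real.exp_le_exp.mpr ?_) hA
        exact mul_le_mul_of_nonneg_left h2 (by positivity)

theorem sh_lower (j : GJ w k V) (h2 : w - a ≤ b) {t : ℝ} (ht : t ≤ -b) :
    j.A * Real.exp (-(k * t)) * (1 - Real.exp (2 * k * (t + b))) ≤ shf j.χ a k t := by
  rw [sh_left j (by linarith)]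
  have h3 := sh_R j h2
  have h4 : -(j.A * Real.exp (2 * k * b)) ≤ j.R * Real.exp (-(2 * k * a)) := by
    have h5 : -|j.R| * Real.exp (-(2 * k * a)) ≤ j.R * Real.exp (-(2 * k * a)) :=
      mul_le_mul_of_nonneg_right (neg_abs_le _) (Real.exp_pos _).le
    linarith
  have h6 := mul_le_mul_of_nonneg_right h4 (Real.exp_pos (k * t)).le
  have e : Real.exp (-(k * t)) * Real.exp (2 * k * (t + b)) =
      Real.exp (2 * k * b) * Real.exp (k * t) := by
    rw [← Real.exp_add, ← Real.exp_add]; congr 1; ring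
  have e2 : j.A * Real.exp (-(k * t)) * (1 - Real.exp (2 * k * (t + b))) =
      j.A * Real.exp (-(k * t)) - j.A * (Real.exp (2 * k * b) * Real.exp (k * t)) := by
    rw [← e]; ring
  rw [e2]
  linarith

end

/-- two translates of `V` with the same transmission coefficients -/
noncomputable def gpair {w b a a' : ℝ} {k : ℕ} {V : ℝ → ℝ} (j : GJ w k V)
    (h1 : a ≤ b) (h2 : w - a ≤ b) (h1' : a' ≤ b) (h2' : w - a' ≤ b) :
    Pool.Agent.W738.CP.Pair b k (fun t => V (t - a)) (fun t => V (t - a')) where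
  x := shf j.χ a k
  x' := shf j.χ' a k
  y := shf j.χ a' k
  y' := shf j.χ' a' k
  A := j.A
  W := j.R * (Real.exp (-(2 * k * a')) - Real.exp (-(2 * k * a)))
  cx := continuous_const.mul (j.cont.comp (by fun_prop))
  cy := continuous_const.mul (j.cont.comp (by fun_prop))
  dx := fun t => shf_d (j.der _)
  dy := fun t => shf_d (j.der _)
  dx2 := fun t _ _ _ => (shf_d (j.der2 _)).congr_deriv (by unfold shf; ring)
  dy2 := fun t _ _ _ => (shf_d (j.der2 _)).congr_deriv (by unfold shf; ring)
  pos := sh_pos j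
  right := fun t ht => sh_right j (by linarith)
  right' := fun t ht => sh_right' j (by linarith)
  eqr := fun t ht => by rw [sh_right j (by linarith), sh_right j (by linarith)]
  eqr' := fun t ht => by rw [sh_right' j (by linarith), sh_right' j (by linarith)]
  left := fun t ht => by
    rw [sh_left j (by linarith), sh_left j (by linarith)]; ring
  left' := fun t ht => by
    rw [sh_left' j (by linarith), sh_left' j (by linarith)]; ring
  hA := j.one_le_A
  hW := by
    have a1 := sh_R j h2
    have a2 := sh_R j h2'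
    have p1 := Real.exp_pos (-(2 * k * a))
    have p2 := Real.exp_pos (-(2 * k * a'))
    rw [abs_mul]
    rcases le_total (Real.exp (-(2 * k * a'))) (Real.exp (-(2 * k * a))) with h | h
    · have h3 : |Real.exp (-(2 * k * a')) - Real.exp (-(2 * k * a))| ≤
          Real.exp (-(2 * k * a)) := by
        rw [abs_of_nonpos (by linarith)]; linarith
      exact (mul_le_mul_of_nonneg_left h3 (abs_nonneg _)).trans a1
    · have h3 : |Real.exp (-(2 * k * a')) - Real.exp (-(2 * k * a))| ≤
          Real.exp (-(2 * k * a')) := by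
        rw [abs_of_nonneg (by linarith)]; linarith
      exact (mul_le_mul_of_nonneg_left h3 (abs_nonneg _)).trans a2
  upper := sh_upper j
  bd := fun t => Pool.Agent.W738.CP.abs_sub_le_of_pos (sh_pos j t) (sh_pos j t) (sh_upper j t)
    (sh_upper j t)
  lower := fun t ht => sh_lower j h2 ht

end Pool.Agent.Y313.CC
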