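import Mathlib
import Pool.Agent.W738.CP.Final

set_option autoImplicit false

open MeasureTheory Set Filter Topology
open scoped ContDiff

namespace Pool.Agent.Y313.CC

/-- The potential on the disc which is carried to `V (t)` in the coordinate
`t = log (|1 + z| / |1 - z|)` of the strip. -/
noncomputable def pot (V : ℝ → ℝ) (z : ℂ) : ℝ :=
  4 / ‖1 - z ^ 2‖ ^ 2 * V (Real.log (‖1 + z‖ / ‖1 - z‖))

open Pool.Agent.W738.CP (Z J om)

theorem pot_strip (V : ℝ → ℝ) {t s : ℝ} (h0 : 0 ≤ s) (h1 : s ≤ Real.pi) :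
    J t s * pot V (Z t s) = V t := by
  have hne : ‖om t s + Complex.I‖ ≠ 0 :=
    norm_ne_zero_iff.mpr (Pool.Agent.W738.CP.om_add_ne h0 h1)
  have h2 : ‖1 + Z t s‖ / ‖1 - Z t s‖ = Real.exp t := by
    rw [Pool.Agent.W738.CP.one_add_Z h0 h1, Pool.Agent.W738.CP.one_sub_Z h0 h1, norm_div, norm_div,
      norm_mul, norm_mul, Pool.Agent.W738.CP.om_norm, Complex.norm_I]
    have h3 : ‖(2 : ℂ)‖ = 2 := by simp
    rw [h3]
    field_simp
  unfold pot
  rw [h2, Real.log_exp, ← mul_assoc, Pool.Agent.W738.CP.pot_weight h0 h1, one_mul]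

theorem pot_nonneg {V : ℝ → ℝ} (h0 : ∀ t, 0 ≤ V t) (z : ℂ) : 0 ≤ pot V z :=
  mul_nonneg (by positivity) (h0 _)

theorem norm_sq_eq (z : ℂ) : ‖1 - z ^ 2‖ = ‖1 - z‖ * ‖1 + z‖ := by
  rw [← norm_mul]; congr 1; ring

theorem two_le (z : ℂ) : 2 ≤ ‖1 + z‖ + ‖1 - z‖ := by
  have h := norm_add_le (1 + z) (1 - z)
  have e : (1 + z) + (1 - z) = 2 := by ring
  rw [e, Complex.norm_ofNat] at h
  exact h

theorem pot_le {V : ℝ → ℝ} {b m : ℝ} (hb : 0 < b) (h0 : ∀ t, 0 ≤ V t) (hm : ∀ t, V t ≤ m)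
    (hs : ∀ t, b ≤ |t| → V t = 0) (z : ℂ) : pot V z ≤ 4 * Real.exp (2 * b) * m := by
  have hm0 : 0 ≤ m := (h0 0).trans (hm 0)
  unfold pot
  by_cases hV : V (Real.log (‖1 + z‖ / ‖1 - z‖)) = 0
  · rw [hV, mul_zero]; positivity
  have hlog : |Real.log (‖1 + z‖ / ‖1 - z‖)| < b := by
    by_contra hc
    exact hV (hs _ (not_lt.1 hc))
  rcases (norm_nonneg (1 - z)).eq_or_lt with hq | hq
  · rw [norm_sq_eq, ← hq]; simp; positivity
  rcases (norm_nonneg (1 + z)).eq_or_lt with hp | hp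
  · rw [norm_sq_eq, ← hp]; simp; positivity
  rw [abs_lt] at hlog
  have h2 := two_le z
  have hE : 1 ≤ Real.exp b := Real.one_le_exp hb.le
  have hr : 0 < ‖1 + z‖ / ‖1 - z‖ := div_pos hp hq
  have a1 : ‖1 + z‖ ≤ Real.exp b * ‖1 - z‖ := by
    have := (Real.log_lt_iff_lt_exp hr).1 hlog.2
    rw [div_lt_iff₀ hq] at this
    exact this.le
  have a2 : ‖1 - z‖ ≤ Real.exp b * ‖1 + z‖ := by
    have := (Real.lt_log_iff_exp_lt hr).1 hlog.1
    rw [lt_div_iff₀ hq, Real.exp_neg, inv_mul_lt_iff₀ (Real.exp_pos b)] at this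
    exact this.le
  have a3 : 1 ≤ Real.exp b * (‖1 - z‖ * ‖1 + z‖) := by
    rcases le_total ‖1 + z‖ ‖1 - z‖ with h | h
    · have : 1 ≤ ‖1 - z‖ := by linarith
      nlinarith
    · have : 1 ≤ ‖1 + z‖ := by linarith
      nlinarith
  have a4 : 1 ≤ Real.exp (2 * b) * ‖1 - z ^ 2‖ ^ 2 := by
    rw [norm_sq_eq, ← Pool.Agent.W738.CP.exp_two, ← mul_pow]
    exact one_le_pow₀ a3
  have hn : 0 < ‖1 - z ^ 2‖ ^ 2 := by rw [norm_sq_eq]; positivity
  have a5 : 4 / ‖1 - z ^ 2‖ ^ 2 ≤ 4 * Real.exp (2 * b) := by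
    rw [div_le_iff₀ hn]; linarith
  exact mul_le_mul a5 (hm _) (h0 _) (by positivity)

theorem pot_near_one {V : ℝ → ℝ} {b : ℝ} (hs : ∀ t, b ≤ |t| → V t = 0) :
    ∀ᶠ z in 𝓝 (1 : ℂ), pot V z = 0 := by
  have c1 : Continuous (fun z : ℂ => Real.exp b * ‖1 - z‖ - ‖1 + z‖) := by fun_prop
  have h1 : ∀ᶠ z in 𝓝 (1 : ℂ), Real.exp b * ‖1 - z‖ - ‖1 + z‖ < 0 := by
    refine c1.continuousAt.eventually_lt continuousAt_const ?_
    simp only [sub_self, norm_zero, mul_zero, zero_sub, Left.neg_neg_iff]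
    norm_num
  filter_upwards [h1] with z hz
  unfold pot
  rcases (norm_nonneg (1 - z)).eq_or_lt with hq | hq
  · rw [norm_sq_eq, ← hq]; simp
  have hr : Real.exp b < ‖1 + z‖ / ‖1 - z‖ := by
    rw [lt_div_iff₀ hq]; linarith
  have h2 : b < Real.log (‖1 + z‖ / ‖1 - z‖) :=
    (Real.lt_log_iff_exp_lt ((Real.exp_pos b).trans hr)).2 hr
  rw [hs _ (h2.le.trans (le_abs_self _)), mul_zero]

theorem pot_near_neg_one {V : ℝ → ℝ} {b : ℝ} (hs : ∀ t, b ≤ |t| → V t = 0) :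
    ∀ᶠ z in 𝓝 (-1 : ℂ), pot V z = 0 := by
  have c1 : Continuous (fun z : ℂ => Real.exp b * ‖1 + z‖ - ‖1 - z‖) := by fun_prop
  have h1 : ∀ᶠ z in 𝓝 (-1 : ℂ), Real.exp b * ‖1 + z‖ - ‖1 - z‖ < 0 := by
    refine c1.continuousAt.eventually_lt continuousAt_const ?_
    simp only [add_neg_cancel, norm_zero, mul_zero, zero_sub, Left.neg_neg_iff, sub_neg_eq_add]
    norm_num
  filter_upwards [h1] with z hz
  unfold pot
  rcases (norm_nonneg (1 + z)).eq_or_lt with hq | hq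
  · rw [norm_sq_eq, ← hq]; simp
  have hp : 0 < ‖1 - z‖ := by
    have := mul_pos (Real.exp_pos b) hq
    linarith
  have hr : ‖1 + z‖ / ‖1 - z‖ < Real.exp (-b) := by
    rw [div_lt_iff₀ hp, Real.exp_neg, lt_inv_mul_iff₀ (Real.exp_pos b)]
    linarith
  have h2 : Real.log (‖1 + z‖ / ‖1 - z‖) < -b :=
    (Real.log_lt_iff_lt_exp (div_pos hq hp)).2 hr
  have h3 : b ≤ |Real.log (‖1 + z‖ / ‖1 - z‖)| := by
    rw [le_abs]; right; linarith
  rw [hs _ h3, mul_zero]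

theorem pot_smooth {V : ℝ → ℝ} {b : ℝ} (hV : ContDiff ℝ ∞ V) (hs : ∀ t, b ≤ |t| → V t = 0) :
    ContDiff ℝ ∞ (pot V) := by
  rw [contDiff_iff_contDiffAt]
  intro z
  by_cases h1 : 1 - z = 0
  · have hz : z = 1 := by linear_combination -h1
    subst hz
    exact contDiffAt_const.congr_of_eventuallyEq (pot_near_one hs)
  by_cases h2 : 1 + z = 0
  · have hz : z = -1 := by linear_combination h2
    subst hz
    exact contDiffAt_const.congr_of_eventuallyEq (pot_near_neg_one hs)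
  have n1 : ‖1 - z‖ ≠ 0 := norm_ne_zero_iff.mpr h1
  have n2 : ‖1 + z‖ ≠ 0 := norm_ne_zero_iff.mpr h2
  have e3 : 1 - z ^ 2 ≠ 0 := by
    have : 1 - z ^ 2 = (1 - z) * (1 + z) := by ring
    rw [this]; exact mul_ne_zero h1 h2
  have n3 : ‖1 - z ^ 2‖ ^ 2 ≠ 0 := pow_ne_zero _ (norm_ne_zero_iff.mpr e3)
  have d1 : ContDiffAt ℝ ∞ (fun z : ℂ => ‖1 - z‖) z :=
    ContDiffAt.norm ℝ (by fun_prop) h1
  have d2 : ContDiffAt ℝ ∞ (fun z : ℂ => ‖1 + z‖) z :=
    ContDiffAt.norm ℝ (by fun_prop) h2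
  have d3 : ContDiffAt ℝ ∞ (fun z : ℂ => ‖1 - z ^ 2‖) z :=
    ContDiffAt.norm ℝ (by fun_prop) e3
  have d4 : ContDiffAt ℝ ∞ (fun z : ℂ => 4 / ‖1 - z ^ 2‖ ^ 2) z :=
    contDiffAt_const.div (d3.pow 2) n3
  have d5 : ContDiffAt ℝ ∞ (fun z : ℂ => Real.log (‖1 + z‖ / ‖1 - z‖)) z :=
    (d2.div d1 n1).log (div_ne_zero n2 n1)
  exact d4.mul (hV.contDiffAt.comp z d5)

theorem pot_real (t : ℝ) :
    ∃ z ∈ Metric.ball (0 : ℂ) 1, ∃ c : ℝ, 0 < c ∧ ∀ V : ℝ → ℝ, pot V z = c * V t := by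
  set x : ℝ := Real.tanh (t / 2) with hx
  have h1 : x < 1 := Real.tanh_lt_one _
  have h2 : -1 < x := Real.neg_one_lt_tanh _
  have e1 : (1 : ℂ) - (x : ℂ) = ((1 - x : ℝ) : ℂ) := by push_cast; ring
  have e2 : (1 : ℂ) + (x : ℂ) = ((1 + x : ℝ) : ℂ) := by push_cast; ring
  have n1 : ‖(1 : ℂ) - (x : ℂ)‖ = 1 - x := by
    rw [e1, Complex.norm_real, Real.norm_eq_abs, abs_of_pos (by linarith)]
  have n2 : ‖(1 : ℂ) + (x : ℂ)‖ = 1 + x := by
    rw [e2, Complex.norm_real, Real.norm_eq_abs, abs_of_pos (by linarith)]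
  refine ⟨(x : ℂ), ?_, 4 / ‖1 - (x : ℂ) ^ 2‖ ^ 2, ?_, ?_⟩
  · rw [Metric.mem_ball, dist_zero_right, Complex.norm_real, Real.norm_eq_abs, abs_lt]
    exact ⟨h2, h1⟩
  · rw [norm_sq_eq, n1, n2]
    have : 0 < 1 - x := by linarith
    have : 0 < 1 + x := by linarith
    positivity
  · intro V
    unfold pot
    rw [n1, n2]
    have h3 := Pool.Agent.W738.CP.tanh_rel (t / 2)
    rw [← hx] at h3
    have h4 : (1 + x) / (1 - x) = Real.exp t := by
      rw [div_eq_iff (by linarith), h3]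
      congr 2; ring
    rw [h4, Real.log_exp]

/-- different translates give different potentials -/
theorem pot_ne {V : ℝ → ℝ} {b a a' t₀ : ℝ} (hV : ContDiff ℝ ∞ V) (ht : V t₀ ≠ 0)
    (hs : ∀ t, b ≤ |t| → V (t - a) = 0) (hs' : ∀ t, b ≤ |t| → V (t - a') = 0) (hne : a ≠ a') :
    ¬ (pot (fun t => V (t - a)) =ᵐ[volume.restrict (Metric.ball (0 : ℂ) 1)]
      pot (fun t => V (t - a'))) := by
  intro h
  have hc : Continuous (pot fun t => V (t - a)) :=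
    (pot_smooth (hV.comp (contDiff_id.sub contDiff_const)) hs).continuous
  have hc' : Continuous (pot fun t => V (t - a')) :=
    (pot_smooth (hV.comp (contDiff_id.sub contDiff_const)) hs').continuous
  have heq := Measure.eqOn_open_of_ae_eq h Metric.isOpen_ball hc.continuousOn hc'.continuousOn
  have hV1 : ∀ t, V (t - a) = V (t - a') := by
    intro t
    obtain ⟨z, hz, c, hc0, hc1⟩ := pot_real t
    have h1 := heq hz
    rw [hc1, hc1] at h1
    exact mul_left_cancel₀ hc0.ne' h1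
  have hper : ∀ n : ℕ, V (t₀ + n * (a' - a)) = V t₀ := by
    intro n
    induction n with
    | zero => simp
    | succ n ih =>
      rw [← ih]
      have := hV1 (t₀ + n * (a' - a) + a')
      rw [show t₀ + (n : ℝ) * (a' - a) + a' - a = t₀ + ((n + 1 : ℕ) : ℝ) * (a' - a) by
        push_cast; ring,
        show t₀ + (n : ℝ) * (a' - a) + a' - a' = t₀ + (n : ℝ) * (a' - a) by ring] at this
      exact this
  have hd : 0 < |a' - a| := abs_pos.2 (sub_ne_zero.2 hne.symm)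
  obtain ⟨n, hn⟩ := exists_nat_gt ((b + |t₀| + |a|) / |a' - a|)
  rw [div_lt_iff₀ hd] at hn
  apply ht
  rw [← hper n]
  have h5 := hs (t₀ + n * (a' - a) + a) (by
    have h6 : |(n : ℝ) * (a' - a)| = n * |a' - a| := by
      rw [abs_mul, abs_of_nonneg (Nat.cast_nonneg n)]
    have h7 : |(n : ℝ) * (a' - a)| ≤ |t₀ + n * (a' - a) + a| + |t₀| + |a| := by
      have h8 : (n : ℝ) * (a' - a) = (t₀ + n * (a' - a) + a) - t₀ - a := by ring
      calc |(n : ℝ) * (a' - a)| = |(t₀ + n * (a' - a) + a) - t₀ - a| := by rw [← h8]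
        _ ≤ |(t₀ + n * (a' - a) + a) - t₀| + |a| := abs_sub _ _
        _ ≤ |t₀ + n * (a' - a) + a| + |t₀| + |a| := by
          have := abs_sub (t₀ + n * (a' - a) + a) t₀
          linarith
    linarith)
  rw [add_sub_cancel_right] at h5
  exact h5

end Pool.Agent.Y313.CC
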