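import Mathlib
import Pool.Agent.Y313.CC.Pair
import Pool.Agent.Y313.CC.Pot

set_option autoImplicit false

open MeasureTheory Set Filter Topology
open scoped ContDiff

namespace Pool.Agent.Y313.CC

open Pool.Agent.W738.CP (CauchyData)

theorem supp_of {V : ℝ → ℝ} {b w a : ℝ} (hr : ∀ t, 0 ≤ t → V t = 0) (hl : ∀ t, t ≤ -w → V t = 0)
    (ha : a ≤ b) (ha2 : w - a ≤ b) (t : ℝ) (ht : b ≤ |t|) : V (t - a) = 0 := by
  rcases le_abs.1 ht with h | h
  · exact hr _ (by linarith)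
  · exact hl _ (by linarith)

theorem incl_pot {b w : ℝ} (hb : 0 < b) (hw : 0 ≤ w) {V : ℝ → ℝ} (hV : Continuous V)
    (h0 : ∀ t, 0 ≤ V t) (h1 : ∀ t, V t ≤ 1) (hr : ∀ t, 0 ≤ t → V t = 0)
    (hl : ∀ t, t ≤ -w → V t = 0) {a a' : ℝ} (ha1 : a ≤ b) (ha2 : w - a ≤ b) (ha1' : a' ≤ b)
    (ha2' : w - a' ≤ b) {ΓD ΓN : Set ℂ}
    (hD : ∀ z ∈ ΓD, z ∈ Metric.sphere (0 : ℂ) 1 ∧ z.re < Real.tanh (-b))
    (hN : ∀ z ∈ ΓN, Real.tanh b < z.re) :
    CauchyData (pot fun t => V (t - a)) ΓD ΓN ⊆ CauchyData (pot fun t => V (t - a')) ΓD ΓN := by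
  have hm : ∀ a : ℝ, Measurable (pot fun t => V (t - a)) := by
    intro a
    unfold pot
    refine Measurable.mul (by fun_prop) ?_
    exact (hV.measurable.comp (measurable_id.sub_const a)).comp
      (Real.measurable_log.comp (by fun_prop))
  have hc : ∀ a : ℝ, Continuous (fun t => V (t - a)) := fun a => hV.comp (by fun_prop)
  have hb1 : ∀ a : ℝ, a ≤ b → w - a ≤ b → ∀ z, |pot (fun t => V (t - a)) z| ≤
      4 * Real.exp (2 * b) * 1 := by
    intro a g1 g2 z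
    rw [abs_of_nonneg (pot_nonneg (fun t => h0 (t - a)) z)]
    exact pot_le hb (fun t => h0 (t - a)) (fun t => h1 (t - a)) (supp_of hr hl g1 g2) z
  have hab : ∀ a t : ℝ, |V (t - a)| ≤ 1 := fun a t => by
    rw [abs_of_nonneg (h0 _)]; exact h1 _
  refine Pool.Agent.W738.CP.incl hb (P := fun t => V (t - a)) (S := fun t => V (t - a'))
    (fun t s g0 g1 => pot_strip _ g0 g1) (fun t s g0 g1 => pot_strip _ g0 g1) (hm a) (hm a')
    (hb1 a ha1 ha2) (hb1 a' ha1' ha2') (fun t _ _ _ => (hc a).continuousAt) (hc a).measurable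
    (hc a').measurable (hab a) (hab a') ?_ ?_ hD hN
  · intro t ht
    have h3 : b ≤ |t| := by
      rcases ht with h | h
      · rw [le_abs]; right; linarith
      · rw [le_abs]; left; exact h.le
    simp only [supp_of hr hl ha1 ha2 t h3, supp_of hr hl ha1' ha2' t h3]
  · intro k hk
    exact gpair (Classical.choice (exists_jost hw hk hV h0 hr hl)) ha1 ha2 ha1' ha2'

/-- all the translates of `V` supported in `[-b, b]` have the same data -/
theorem data_eq {b l r : ℝ} (hb : 0 < b) (hlr : l ≤ r) {V : ℝ → ℝ} (hV : Continuous V)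
    (h0 : ∀ t, 0 ≤ V t) (h1 : ∀ t, V t ≤ 1) (hs : ∀ t, t ≤ l ∨ r ≤ t → V t = 0) {a a' : ℝ}
    (ha1 : -b ≤ l + a) (ha2 : r + a ≤ b) (ha1' : -b ≤ l + a') (ha2' : r + a' ≤ b)
    {ΓD ΓN : Set ℂ} (hD : ΓD ⊆ {z | ‖z‖ = 1 ∧ z.re < -Real.tanh b})
    (hN : ΓN ⊆ {z | ‖z‖ = 1 ∧ Real.tanh b < z.re}) :
    CauchyData (pot fun t => V (t - a)) ΓD ΓN = CauchyData (pot fun t => V (t - a')) ΓD ΓN := by
  have e : ∀ a : ℝ, (fun t => V (t - a)) = fun t => (fun s => V (s + r)) (t - (a + r)) := by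
    intro a; funext t; congr 1; ring
  have hD' : ∀ z ∈ ΓD, z ∈ Metric.sphere (0 : ℂ) 1 ∧ z.re < Real.tanh (-b) := by
    intro z hz
    obtain ⟨a1, a2⟩ := hD hz
    exact ⟨by simpa using a1, by rw [Real.tanh_neg]; exact a2⟩
  have hN' : ∀ z ∈ ΓN, Real.tanh b < z.re := fun z hz => (hN hz).2
  have hV' : Continuous (fun s => V (s + r)) := hV.comp (by fun_prop)
  have hr : ∀ t, 0 ≤ t → (fun s => V (s + r)) t = 0 := fun t ht => hs _ (Or.inr (by linarith))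
  have hl : ∀ t, t ≤ -(r - l) → (fun s => V (s + r)) t = 0 :=
    fun t ht => hs _ (Or.inl (by linarith))
  rw [e a, e a']
  apply Subset.antisymm
  · exact incl_pot hb (sub_nonneg.2 hlr) hV' (fun t => h0 _) (fun t => h1 _) hr hl
      (by linarith) (by linarith) (by linarith) (by linarith) hD' hN'
  · exact incl_pot hb (sub_nonneg.2 hlr) hV' (fun t => h0 _) (fun t => h1 _) hr hl
      (by linarith) (by linarith) (by linarith) (by linarith) hD' hN'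

theorem supp2 {V : ℝ → ℝ} {b l r a : ℝ} (hs : ∀ t, t ≤ l ∨ r ≤ t → V t = 0)
    (ha1 : -b ≤ l + a) (ha2 : r + a ≤ b) (t : ℝ) (ht : b ≤ |t|) : V (t - a) = 0 := by
  rcases le_abs.1 ht with h | h
  · exact hs _ (Or.inr (by linarith))
  · exact hs _ (Or.inl (by linarith))

/-- a continuum of arbitrarily small smooth potentials with the same data -/
theorem family {c ε : ℝ} (h0 : 0 < c) (h1 : c < 1) (hε : 0 < ε) :
    ∃ q : ℝ → ℂ → ℝ,
      (∀ a ∈ Icc (0 : ℝ) 1, ContDiff ℝ ∞ (q a) ∧ ∀ z, 0 ≤ q a z ∧ q a z ≤ ε) ∧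
      (∀ a ∈ Icc (0 : ℝ) 1, ∀ a' ∈ Icc (0 : ℝ) 1, a ≠ a' →
        ¬ (q a =ᵐ[volume.restrict (Metric.ball (0 : ℂ) 1)] q a')) ∧
      ∀ a ∈ Icc (0 : ℝ) 1, ∀ a' ∈ Icc (0 : ℝ) 1, ∀ ΓD ΓN : Set ℂ,
        ΓD ⊆ {z | ‖z‖ = 1 ∧ z.re < -c} → ΓN ⊆ {z | ‖z‖ = 1 ∧ c < z.re} →
        CauchyData (q a) ΓD ΓN = CauchyData (q a') ΓD ΓN := by
  obtain ⟨b, hb, rfl⟩ := Pool.Agent.W738.CP.exists_tanh h0 h1
  let f : ContDiffBump (0 : ℝ) := ⟨b / 4, b / 2, by positivity, by linarith⟩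
  set δ : ℝ := min 1 (ε / (4 * Real.exp (2 * b))) with hδ
  have hδ0 : 0 < δ := lt_min one_pos (by positivity)
  have hδ1 : δ ≤ 1 := min_le_left _ _
  have hδ2 : 4 * Real.exp (2 * b) * δ ≤ ε := by
    have h2 : δ ≤ ε / (4 * Real.exp (2 * b)) := min_le_right _ _
    rw [le_div_iff₀ (by positivity)] at h2
    linarith
  obtain ⟨V, hVd⟩ : ∃ V : ℝ → ℝ, ∀ t, V t = δ * f t := ⟨_, fun _ => rfl⟩
  have hV : ContDiff ℝ ∞ V := by
    have : V = fun t => δ * f t := funext hVd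
    rw [this]
    exact contDiff_const.mul f.contDiff
  have v0 : ∀ t, 0 ≤ V t := fun t => by
    rw [hVd]; exact mul_nonneg hδ0.le f.nonneg
  have vδ : ∀ t, V t ≤ δ := fun t => by
    rw [hVd]
    have := mul_le_mul_of_nonneg_left (f.le_one (x := t)) hδ0.le
    linarith
  have vs : ∀ t, t ≤ -(b / 2) ∨ b / 2 ≤ t → V t = 0 := by
    intro t ht
    rw [hVd, f.zero_of_le_dist, mul_zero]
    show b / 2 ≤ dist t 0
    rw [dist_zero_right, Real.norm_eq_abs, le_abs]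
    rcases ht with h | h
    · right; linarith
    · left; exact h
  have vt : V 0 ≠ 0 := by
    rw [hVd, f.one_of_mem_closedBall, mul_one]
    · exact hδ0.ne'
    · show (0 : ℝ) ∈ Metric.closedBall 0 (b / 4)
      exact Metric.mem_closedBall_self (by positivity)
  have ha1 : ∀ a ∈ Icc (0 : ℝ) 1, -b ≤ -(b / 2) + b / 2 * a := by
    intro a ha
    have := mul_nonneg (by positivity : 0 ≤ b / 2) ha.1
    linarith
  have ha2 : ∀ a ∈ Icc (0 : ℝ) 1, b / 2 + b / 2 * a ≤ b := by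
    intro a ha
    have := mul_le_mul_of_nonneg_left ha.2 (by positivity : 0 ≤ b / 2)
    linarith
  refine ⟨fun a => pot fun t => V (t - b / 2 * a), ?_, ?_, ?_⟩
  · intro a ha
    have hs := supp2 vs (ha1 a ha) (ha2 a ha)
    refine ⟨pot_smooth (hV.comp (contDiff_id.sub contDiff_const)) hs, fun z => ?_⟩
    refine ⟨pot_nonneg (fun t => v0 _) z, ?_⟩
    exact (pot_le hb (fun t => v0 _) (fun t => vδ _) hs z).trans hδ2
  · intro a ha a' ha' hne
    refine pot_ne hV vt (supp2 vs (ha1 a ha) (ha2 a ha)) (supp2 vs (ha1 a' ha') (ha2 a' ha')) ?_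
    intro h
    exact hne (mul_left_cancel₀ (by positivity : b / 2 ≠ 0) h)
  · intro a ha a' ha' ΓD ΓN hD hN
    exact data_eq hb (by linarith) hV.continuous v0 (fun t => (vδ t).trans hδ1) vs
      (ha1 a ha) (ha2 a ha) (ha1 a' ha') (ha2 a' ha') hD hN

end Pool.Agent.Y313.CC
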